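import Pool.Agent.H76.MXT.Stmts

/-!
# Board `mxt`, row OPP (helper52): opposite signs by intermediate values
-/

set_option autoImplicit false

namespace Pool.MXT

open Set

private theorem opp_sign (f : ℝ → ℝ) (δ : ℝ) (hδ : 0 < δ) (hf : ContinuousOn f (Icc 0 δ))
    (h0 : ∀ u ∈ Ioc 0 δ, f u ≠ 0) : (∀ u ∈ Ioc 0 δ, 0 < f u) ∨ (∀ u ∈ Ioc 0 δ, f u < 0) := by
  have hδ' : f δ ≠ 0 := h0 δ ⟨hδ, le_refl δ⟩
  rcases lt_or_gt_of_ne hδ' with h | h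
  · right
    intro u hu
    by_contra hcon
    rw [not_lt] at hcon
    have h1 : ContinuousOn f (Icc u δ) := hf.mono (Icc_subset_Icc_left hu.1.le)
    obtain ⟨w, hw, hw0⟩ := intermediate_value_Icc' hu.2 h1 ⟨h.le, hcon⟩
    exact h0 w ⟨lt_of_lt_of_le hu.1 hw.1, hw.2⟩ hw0
  · left
    intro u hu
    by_contra hcon
    rw [not_lt] at hcon
    have h1 : ContinuousOn f (Icc u δ) := hf.mono (Icc_subset_Icc_left hu.1.le)
    obtain ⟨w, hw, hw0⟩ := intermediate_value_Icc hu.2 h1 ⟨hcon, h.le⟩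
    exact h0 w ⟨lt_of_lt_of_le hu.1 hw.1, hw.2⟩ hw0

private theorem opp_half (a b : ℝ → ℝ) (δ : ℝ) (hδ : 0 < δ) (hb : ContinuousOn b (Icc 0 δ))
    (hb0 : b 0 = 0) (hpa : 0 < a δ) (hab : a δ ≤ b δ) : ∃ v ∈ Ioc 0 δ, a δ = b v := by
  obtain ⟨v, hv, hv0⟩ := intermediate_value_Icc hδ.le hb ⟨by rw [hb0]; exact hpa.le, hab⟩
  refine ⟨v, ⟨lt_of_le_of_ne hv.1 ?_, hv.2⟩, hv0.symm⟩
  intro h
  rw [← h, hb0] at hv0
  exact absurd hpa (by rw [← hv0]; exact lt_irrefl _)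

private theorem opp_pos (a b : ℝ → ℝ) (δ : ℝ) (hδ : 0 < δ) (ha : ContinuousOn a (Icc 0 δ))
    (hb : ContinuousOn b (Icc 0 δ)) (ha0 : a 0 = 0) (hb0 : b 0 = 0) (hpa : 0 < a δ)
    (hpb : 0 < b δ) : ∃ u ∈ Ioc 0 δ, ∃ v ∈ Ioc 0 δ, a u = b v := by
  rcases le_total (a δ) (b δ) with h | h
  · obtain ⟨v, hv, h1⟩ := opp_half a b δ hδ hb hb0 hpa h
    exact ⟨δ, ⟨hδ, le_refl δ⟩, v, hv, h1⟩
  · obtain ⟨u, hu, h1⟩ := opp_half b a δ hδ ha ha0 hpb h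
    exact ⟨u, hu, δ, ⟨hδ, le_refl δ⟩, h1.symm⟩

theorem opp_thm : S_OPP := by
  intro a b δ hδ ha hb ha0 hb0 hna hnb hne
  have hm : δ ∈ Ioc (0 : ℝ) δ := ⟨hδ, le_refl δ⟩
  have hle : ∀ f : ℝ → ℝ, f 0 = 0 → (∀ u ∈ Ioc 0 δ, 0 < f u) → ∀ u ∈ Icc 0 δ, 0 ≤ f u := by
    intro f hf0 hf u hu
    rcases hu.1.eq_or_lt with h | h
    · rw [← h, hf0]
    · exact (hf u ⟨h, hu.2⟩).le
  have hle' : ∀ f : ℝ → ℝ, f 0 = 0 → (∀ u ∈ Ioc 0 δ, f u < 0) → ∀ u ∈ Icc 0 δ, f u ≤ 0 := by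
    intro f hf0 hf u hu
    rcases hu.1.eq_or_lt with h | h
    · rw [← h, hf0]
    · exact (hf u ⟨h, hu.2⟩).le
  rcases opp_sign a δ hδ ha hna with h1 | h1
  · rcases opp_sign b δ hδ hb hnb with h2 | h2
    · obtain ⟨u, hu, v, hv, h3⟩ := opp_pos a b δ hδ ha hb ha0 hb0 (h1 δ hm) (h2 δ hm)
      exact absurd h3 (hne u hu v hv)
    · refine ⟨1, Or.inl rfl, ?_, ?_⟩
      · intro u hu
        rw [one_mul]
        exact hle a ha0 h1 u hu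
      · intro u hu
        rw [one_mul]
        exact hle' b hb0 h2 u hu
  · rcases opp_sign b δ hδ hb hnb with h2 | h2
    · refine ⟨-1, Or.inr rfl, ?_, ?_⟩
      · intro u hu
        have := hle' a ha0 h1 u hu
        linarith
      · intro u hu
        have := hle b hb0 h2 u hu
        linarith
    · obtain ⟨u, hu, v, hv, h3⟩ := opp_pos (fun u => - a u) (fun u => - b u) δ hδ ha.neg hb.neg
        (by simp [ha0]) (by simp [hb0]) (by simpa using h1 δ hm) (by simpa using h2 δ hm)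
      exact absurd (neg_injective h3) (hne u hu v hv)

end Pool.MXT
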